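import Mathlib
import Pool.Agent.Lib.PGC.Fin

/-!
MP_502342_al: permanent on top for all `n` and all partitions, for strongly diagonally dominant
matrices.

Let `A` be a Hermitian `n x n` matrix and `d_1, ..., d_n > 0` with
`∑_{j ≠ i} |a_ij| d_j ≤ a_ii d_i / 4` for every `i`. Then `per A` is the largest eigenvalue of the Schur
power matrix of `A`, and `per (A o B) ≤ per A * b_11 ⋯ b_nn` for every positive semidefinite `B`.
-/

set_option autoImplicit false

open scoped ComplexOrder

namespace Pool.Agent.Results.MP_502342_al.DiagDom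

/-- the Schur power matrix -/
noncomputable def schurPower {n : ℕ} (A : Matrix (Fin n) (Fin n) ℂ) :
    Matrix (Equiv.Perm (Fin n)) (Equiv.Perm (Fin n)) ℂ :=
  Matrix.of fun σ τ => ∏ i, A (σ i) (τ i)

theorem result :
    ∀ (n : ℕ) (A : Matrix (Fin n) (Fin n) ℂ), A.IsHermitian →
      ∀ d : Fin n → ℝ, (∀ i, 0 < d i) →
      (∀ i, ∑ j ∈ Finset.univ.erase i, ‖A i j‖ * d j ≤ (A i i).re * d i / 4) →
      (∀ x : Equiv.Perm (Fin n) → ℂ,
        (∑ σ : Equiv.Perm (Fin n), ∑ τ : Equiv.Perm (Fin n),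
            star (x σ) * (∏ i, A (σ i) (τ i)) * x τ).re
          ≤ A.permanent.re * ∑ σ : Equiv.Perm (Fin n), ‖x σ‖ ^ 2) ∧
      A.permanent.im = 0 ∧
      Module.End.HasEigenvalue (Matrix.toLin' (schurPower A)) A.permanent ∧
      (∀ μ : ℂ, Module.End.HasEigenvalue (Matrix.toLin' (schurPower A)) μ →
        μ.im = 0 ∧ μ.re ≤ A.permanent.re) ∧
      (∀ B : Matrix (Fin n) (Fin n) ℂ, B.PosSemidef →
        (A.hadamard B).permanent.re ≤ A.permanent.re * ∏ i, (B i i).re) := by
  intro n A hA d hd hdom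
  have form := PGC.form_dom A hA d hd hdom
  obtain ⟨h1, h2, h3⟩ := PGB.spectrum_of_form A hA (schurPower A) (fun _ _ => rfl) form
  exact ⟨form, h1, h2, h3, fun B hB => PGB.hadamard_of_form A B hB form⟩

end Pool.Agent.Results.MP_502342_al.DiagDom
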