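import Mathlib
import Pool.Agent.Lib.PGB.Main
import Pool.Agent.Lib.PGB.Fin
import Pool.Agent.Lib.PGB.Blk

/-!
MP_502342_al: permanent on top for all `n` and all partitions, for matrices with simple blocks.

The graph of a Hermitian `n x n` matrix `A` has the vertices `0, ..., n-1`, and `i ≠ j` are joined when
`A i j ≠ 0`. If every block (maximal nonseparable set of vertices) of the graph of the positive
semidefinite matrix `A` has at most four vertices, or is a cycle (of any length), or carries a principal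
submatrix that is diagonally unitarily similar to an entrywise nonnegative matrix, then `per A` is the
largest eigenvalue of the Schur power matrix of `A`, and `per (A o B) ≤ per A * b_11 ⋯ b_nn` for every
positive semidefinite `B`.
-/

set_option autoImplicit false

open scoped ComplexOrder

namespace Pool.Agent.Results.MP_502342_al.SimpleBlocks

/-- the Schur power matrix -/
noncomputable def schurPower {n : ℕ} (A : Matrix (Fin n) (Fin n) ℂ) :
    Matrix (Equiv.Perm (Fin n)) (Equiv.Perm (Fin n)) ℂ :=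
  Matrix.of fun σ τ => ∏ i, A (σ i) (τ i)

/-- `T` is nonseparable in the graph of `A`: it is not the union of two proper subsets that share at
most one vertex and have no edge between their differences -/
def Nonseparable {n : ℕ} (A : Matrix (Fin n) (Fin n) ℂ) (T : Finset (Fin n)) : Prop :=
  ∀ S₁ S₂ : Finset (Fin n), S₁ ∪ S₂ = T → (S₁ ∩ S₂).card ≤ 1 →
    (∀ i ∈ S₁ \ S₂, ∀ j ∈ S₂ \ S₁, A i j = 0) → S₁ = T ∨ S₂ = T

/-- `B` is a block of the graph of `A`: a maximal nonseparable set of vertices -/
def IsBlock {n : ℕ} (A : Matrix (Fin n) (Fin n) ℂ) (B : Finset (Fin n)) : Prop :=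
  Nonseparable A B ∧ ∀ T : Finset (Fin n), B ⊆ T → Nonseparable A T → T = B

/-- the vertices of `B` can be numbered cyclically so that the only nonzero entries of `A[B]` off the
diagonal are those at cyclically consecutive vertices -/
def CycleBlock {n : ℕ} (A : Matrix (Fin n) (Fin n) ℂ) (B : Finset (Fin n)) : Prop :=
  ∃ (m : ℕ) (c : ZMod m → Fin n), Function.Injective c ∧ (∀ v, v ∈ B ↔ ∃ i, c i = v) ∧
    ∀ i j, A (c i) (c j) ≠ 0 → i = j ∨ j = i + 1 ∨ i = j + 1

/-- `A[B]` is diagonally unitarily similar to an entrywise nonnegative matrix -/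
def Balanced {n : ℕ} (A : Matrix (Fin n) (Fin n) ℂ) (B : Finset (Fin n)) : Prop :=
  ∃ u : Fin n → ℂ, (∀ i ∈ B, ‖u i‖ = 1) ∧ ∀ i ∈ B, ∀ j ∈ B, 0 ≤ star (u i) * A i j * u j

theorem result :
    ∀ (n : ℕ) (A : Matrix (Fin n) (Fin n) ℂ), A.PosSemidef →
      (∀ B : Finset (Fin n), IsBlock A B → B.card ≤ 4 ∨ CycleBlock A B ∨ Balanced A B) →
      (∀ x : Equiv.Perm (Fin n) → ℂ,
        (∑ σ : Equiv.Perm (Fin n), ∑ τ : Equiv.Perm (Fin n),
            star (x σ) * (∏ i, A (σ i) (τ i)) * x τ).re
          ≤ A.permanent.re * ∑ σ : Equiv.Perm (Fin n), ‖x σ‖ ^ 2) ∧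
      A.permanent.im = 0 ∧
      Module.End.HasEigenvalue (Matrix.toLin' (schurPower A)) A.permanent ∧
      (∀ μ : ℂ, Module.End.HasEigenvalue (Matrix.toLin' (schurPower A)) μ →
        μ.im = 0 ∧ μ.re ≤ A.permanent.re) ∧
      (∀ B : Matrix (Fin n) (Fin n) ℂ, B.PosSemidef →
        (A.hadamard B).permanent.re ≤ A.permanent.re * ∏ i, (B i i).re) := by
  intro n A hA hblk
  have hok : PGB.Ok A Finset.univ := by
    intro T _ hT
    refine PGB.ok_of_blocks (fun B hB hmax => ?_) T hT
    exact hblk B ⟨hB, hmax⟩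
  have hle := PGB.main (PGB.FinAux.reg n) (PGB.FinAux.reg_uni n) A Finset.univ
    (PGB.PSDon_univ hA) hok
  have form := PGB.form_of_le hle
  obtain ⟨h1, h2, h3⟩ := PGB.spectrum_of_form A hA.1 (schurPower A) (fun _ _ => rfl) form
  exact ⟨form, h1, h2, h3, fun B hB => PGB.hadamard_of_form A B hB form⟩

end Pool.Agent.Results.MP_502342_al.SimpleBlocks
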