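import Mathlib
import Pool.Agent.Lib.Pot4.Main
import Pool.Agent.Lib.Pot4.BS
import Pool.Agent.Lib.Pot4.Soules

/-!
MP_502342_al, the case `n = 4`, all partitions: Soules' permanent-on-top conjecture holds for
matrices of order four.

For every complex positive semidefinite `4 x 4` matrix `A` the largest eigenvalue of the whole
Schur power matrix `pi(A)` (rows and columns indexed by the 24 permutations) is `per A`.
The second part is the same statement written block by block, literally as in the frozen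
statement S01435 with `n = 4` (every partition of 4 is allowed). Parts three and four are the two
conjectures of Bapat and Sunder for `n = 4`: `per A` is an upper bound of the matrix
`(a_ij per A(i|j))`, and `per (A o B) <= per A * b_11 b_22 b_33 b_44`.
-/

set_option autoImplicit false

open scoped ComplexOrder Classical

namespace Pool.Agent.Results.MP_502342_al.SoulesFour

/-- the Schur power matrix -/
noncomputable def schurPower {n : ℕ} (A : Matrix (Fin n) (Fin n) ℂ) :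
    Matrix (Equiv.Perm (Fin n)) (Equiv.Perm (Fin n)) ℂ :=
  Matrix.of fun σ τ => ∏ i, A (σ i) (τ i)

theorem result :
    (∀ A : Matrix (Fin 4) (Fin 4) ℂ, A.PosSemidef →
      (∀ x : Equiv.Perm (Fin 4) → ℂ,
        (∑ σ : Equiv.Perm (Fin 4), ∑ τ : Equiv.Perm (Fin 4),
            star (x σ) * (∏ i, A (σ i) (τ i)) * x τ).re
          ≤ A.permanent.re * ∑ σ : Equiv.Perm (Fin 4), ‖x σ‖ ^ 2) ∧
      A.permanent.im = 0 ∧
      Module.End.HasEigenvalue (Matrix.toLin' (schurPower A)) A.permanent ∧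
      (∀ μ : ℂ, Module.End.HasEigenvalue (Matrix.toLin' (schurPower A)) μ →
        μ.im = 0 ∧ μ.re ≤ A.permanent.re)) ∧
    (∀ (row col : Fin 4 → ℕ),
      Function.Injective (fun i : Fin 4 => (row i, col i)) →
      (∀ (i : Fin 4) (a b : ℕ), a ≤ row i → b ≤ col i → ∃ j : Fin 4, row j = a ∧ col j = b) →
      ∀ A : Matrix (Fin 4) (Fin 4) ℂ, A.PosSemidef →
      ∀ x : Equiv.Perm (Fin 4) → ℂ,
        x ∈ Submodule.span ℂ (Set.range
          (fun st : Equiv.Perm (Fin 4) × Equiv.Perm (Fin 4) =>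
            fun g : Equiv.Perm (Fin 4) =>
              ∑ p : Equiv.Perm (Fin 4), ∑ q : Equiv.Perm (Fin 4),
                if (∀ i, row (p i) = row i) ∧ (∀ i, col (q i) = col i) ∧
                    p * q = st.1⁻¹ * g * st.2⁻¹
                then ((Equiv.Perm.sign q : ℤ) : ℂ) else 0)) →
        (∑ σ : Equiv.Perm (Fin 4), ∑ τ : Equiv.Perm (Fin 4),
            star (x σ) * (∏ i, A (σ i) (τ i)) * x τ).re
          ≤ A.permanent.re * ∑ σ : Equiv.Perm (Fin 4), ‖x σ‖ ^ 2) ∧
    (∀ A : Matrix (Fin 4) (Fin 4) ℂ, A.PosSemidef → ∀ x : Fin 4 → ℂ,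
      (∑ i, ∑ j, star (x i) *
          (A i j * (A.submatrix i.succAbove j.succAbove).permanent) * x j).re
        ≤ A.permanent.re * ∑ i, ‖x i‖ ^ 2) ∧
    (∀ A B : Matrix (Fin 4) (Fin 4) ℂ, A.PosSemidef → B.PosSemidef →
      (A.hadamard B).permanent.re ≤ A.permanent.re * ∏ i, (B i i).re) := by
  have main := Pot4.soules_four
  refine ⟨fun A hA => ⟨main A hA, ?_⟩, fun row col _ _ A hA x _ => main A hA x,
    fun A hA x => Pot4.bs_four A hA x, fun A B hA hB => Pot4.soules_hadamard A B hA hB⟩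
  have hrow : ∀ σ : Equiv.Perm (Fin 4), ∑ τ : Equiv.Perm (Fin 4), ∏ i, A (σ i) (τ i)
      = A.permanent := by
    intro σ
    unfold Matrix.permanent
    rw [← Equiv.sum_comp (Equiv.mulRight σ)]
    rw [← Equiv.sum_comp (Equiv.inv (Equiv.Perm (Fin 4)))
      (fun τ : Equiv.Perm (Fin 4) => ∏ i, A (τ i) i)]
    refine Finset.sum_congr rfl fun τ _ => ?_
    have e1 : (Equiv.mulRight σ) τ = τ * σ := rfl
    have e2 : (Equiv.inv (Equiv.Perm (Fin 4))) τ = τ⁻¹ := rfl
    rw [e1, e2, ← Equiv.prod_comp (τ * σ) (fun i => A (τ⁻¹ i) i)]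
    refine Finset.prod_congr rfl fun i _ => ?_
    simp [Equiv.Perm.mul_apply]
  have heig : ∀ μ : ℂ, Module.End.HasEigenvalue (Matrix.toLin' (schurPower A)) μ →
      ∃ x : Equiv.Perm (Fin 4) → ℂ, x ≠ 0 ∧ ∀ σ, ∑ τ : Equiv.Perm (Fin 4),
        (∏ i, A (σ i) (τ i)) * x τ = μ * x σ := by
    intro μ hμ
    obtain ⟨x, hx⟩ := hμ.exists_hasEigenvector
    refine ⟨x, hx.2, fun σ => ?_⟩
    have h1 := congrFun (Module.End.mem_eigenspace_iff.1 hx.1) σ
    rw [Matrix.toLin'_apply] at h1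
    exact h1
  have him : A.permanent.im = 0 := SPM.per_im A hA
  refine ⟨him, ?_, ?_⟩
  · refine Module.End.hasEigenvalue_of_hasEigenvector (x := fun _ => (1 : ℂ)) ⟨?_, ?_⟩
    · rw [Module.End.mem_eigenspace_iff, Matrix.toLin'_apply]
      funext σ
      have h1 : (schurPower A).mulVec (fun _ => (1 : ℂ)) σ
          = ∑ τ : Equiv.Perm (Fin 4), (∏ i, A (σ i) (τ i)) * 1 := rfl
      rw [h1]
      simp only [mul_one]
      rw [hrow σ]
      simp
    · intro h
      have h1 := congrFun h (1 : Equiv.Perm (Fin 4))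
      exact one_ne_zero h1
  · intro μ hμ
    obtain ⟨x, hx0, hx⟩ := heig μ hμ
    have hN : ∑ σ : Equiv.Perm (Fin 4), star (x σ) * x σ
        = ((∑ σ : Equiv.Perm (Fin 4), ‖x σ‖ ^ 2 : ℝ) : ℂ) := by
      rw [Complex.ofReal_sum]
      refine Finset.sum_congr rfl fun σ _ => ?_
      rw [mul_comm, Complex.star_def, Complex.mul_conj, Complex.normSq_eq_norm_sq]
    have hpos : 0 < ∑ σ : Equiv.Perm (Fin 4), ‖x σ‖ ^ 2 := by
      obtain ⟨σ, hσ⟩ := Function.ne_iff.1 hx0
      refine lt_of_lt_of_le ?_ (Finset.single_le_sum (f := fun σ => ‖x σ‖ ^ 2)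
        (fun τ _ => by positivity) (Finset.mem_univ σ))
      have : x σ ≠ 0 := hσ
      positivity
    have hS : ∑ σ : Equiv.Perm (Fin 4), ∑ τ : Equiv.Perm (Fin 4),
        star (x σ) * (∏ i, A (σ i) (τ i)) * x τ
        = μ * ((∑ σ : Equiv.Perm (Fin 4), ‖x σ‖ ^ 2 : ℝ) : ℂ) := by
      rw [← hN, Finset.mul_sum]
      refine Finset.sum_congr rfl fun σ _ => ?_
      have h1 : ∑ τ : Equiv.Perm (Fin 4), star (x σ) * (∏ i, A (σ i) (τ i)) * x τ
          = star (x σ) * ∑ τ : Equiv.Perm (Fin 4), (∏ i, A (σ i) (τ i)) * x τ := by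
        rw [Finset.mul_sum]
        exact Finset.sum_congr rfl fun τ _ => mul_assoc _ _ _
      rw [h1, hx σ]
      ring
    have hSreal : star (∑ σ : Equiv.Perm (Fin 4), ∑ τ : Equiv.Perm (Fin 4),
        star (x σ) * (∏ i, A (σ i) (τ i)) * x τ)
        = ∑ σ : Equiv.Perm (Fin 4), ∑ τ : Equiv.Perm (Fin 4),
        star (x σ) * (∏ i, A (σ i) (τ i)) * x τ := by
      rw [star_sum]
      refine Eq.trans (b := ∑ σ : Equiv.Perm (Fin 4), ∑ τ : Equiv.Perm (Fin 4),
        star (x τ) * (∏ i, A (τ i) (σ i)) * x σ) ?_ Finset.sum_comm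
      refine Finset.sum_congr rfl fun σ _ => ?_
      rw [star_sum]
      refine Finset.sum_congr rfl fun τ _ => ?_
      rw [star_mul', star_mul', star_star, star_prod]
      have h5 : ∏ i, star (A (σ i) (τ i)) = ∏ i, A (τ i) (σ i) :=
        Finset.prod_congr rfl fun i _ => hA.1.apply _ _
      rw [h5]
      ring
    have hb := main A hA x
    rw [hS] at hb hSreal
    have h2 : (μ * ((∑ σ : Equiv.Perm (Fin 4), ‖x σ‖ ^ 2 : ℝ) : ℂ)).re
        = μ.re * ∑ σ : Equiv.Perm (Fin 4), ‖x σ‖ ^ 2 := Complex.re_mul_ofReal _ _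
    have h3 : (μ * ((∑ σ : Equiv.Perm (Fin 4), ‖x σ‖ ^ 2 : ℝ) : ℂ)).im
        = μ.im * ∑ σ : Equiv.Perm (Fin 4), ‖x σ‖ ^ 2 := Complex.im_mul_ofReal _ _
    constructor
    · have h4 := Complex.conj_eq_iff_im.1 hSreal
      rw [h3] at h4
      exact (mul_eq_zero.1 h4).resolve_right hpos.ne'
    · rw [h2] at hb
      exact le_of_mul_le_mul_right hb hpos

end Pool.Agent.Results.MP_502342_al.SoulesFour
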