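import Mathlib
import Pool.Agent.Lib.SPM.Main

/-!
MP_502342_al, Q1 for the partitions (2,1^(n-2)), all n >= 2.

The diagram of the partition is given by its n cells `i ↦ (row i, col i)`: an injective map with
down-closed image that contains the cell (0,1) but neither (0,2) nor (1,1), i.e. the diagram of
(2,1,...,1).  The span is the two-sided ideal of the group algebra generated by the Young
symmetriser, i.e. the isotypic component (exactly as in frozen statement S01435), and the conclusion
bounds the Rayleigh quotient of the Schur power matrix on it by the permanent.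

The second part is the matrix inequality behind it: the Hadamard product of `A` with its transposed
adjugate is at most `per A` times the identity.
-/

set_option autoImplicit false

open scoped ComplexOrder Classical

namespace Pool.Agent.Results.MP_502342_al.TwoOneBlock

theorem result :
    (∀ (n : ℕ) (row col : Fin n → ℕ),
      Function.Injective (fun i : Fin n => (row i, col i)) →
      (∀ (i : Fin n) (a b : ℕ), a ≤ row i → b ≤ col i → ∃ j : Fin n, row j = a ∧ col j = b) →
      (∃ i : Fin n, row i = 0 ∧ col i = 1) →
      ¬ (∃ i : Fin n, row i = 0 ∧ col i = 2) →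
      ¬ (∃ i : Fin n, row i = 1 ∧ col i = 1) →
      ∀ A : Matrix (Fin n) (Fin n) ℂ, A.PosSemidef →
      ∀ x : Equiv.Perm (Fin n) → ℂ,
        x ∈ Submodule.span ℂ (Set.range
          (fun st : Equiv.Perm (Fin n) × Equiv.Perm (Fin n) =>
            fun g : Equiv.Perm (Fin n) =>
              ∑ p : Equiv.Perm (Fin n), ∑ q : Equiv.Perm (Fin n),
                if (∀ i, row (p i) = row i) ∧ (∀ i, col (q i) = col i) ∧
                    p * q = st.1⁻¹ * g * st.2⁻¹
                then ((Equiv.Perm.sign q : ℤ) : ℂ) else 0)) →
        (∑ σ : Equiv.Perm (Fin n), ∑ τ : Equiv.Perm (Fin n),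
            star (x σ) * (∏ i, A (σ i) (τ i)) * x τ).re
          ≤ A.permanent.re * ∑ σ : Equiv.Perm (Fin n), ‖x σ‖ ^ 2) ∧
    (∀ (n : ℕ) (A : Matrix (Fin n) (Fin n) ℂ), A.PosSemidef →
      (A.permanent • (1 : Matrix (Fin n) (Fin n) ℂ) -
        Matrix.of fun i j => A i j * A.adjugate j i).PosSemidef) :=
  ⟨fun n row col hinj hdown h01 h02 h11 A hA x hx =>
    SPM.block n row col hinj hdown h01 h02 h11 A hA x hx,
    fun n A hA => SPM.hadamard_le n A hA⟩

end Pool.Agent.Results.MP_502342_al.TwoOneBlock
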